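import Pool.Agent.Lib.P8267fa.Basic

/-!
# The topology `t_1^Z` on `C(Y, Z)` need not be (completely) regular

The space `Y` consists of the nodes of the full binary tree (isolated points) and one further
point, whose neighbourhoods are the sets containing all nodes outside finitely many branches.
-/

set_option autoImplicit false

universe u

open Pool.Agent.Lib.P8267fa in
/-- There is a countable Tychonoff space `Y` such that for every topological space `Z` with a
nonempty proper open subset the space `C(Y, Z)` with the topology `t_1^Z` is not regular, hence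
not completely regular. -/
theorem Pool.Agent.Results.MP_8267fa_gt.NotRegular.result :
    ∃ (Y : Type) (_ : TopologicalSpace Y), Countable Y ∧ T2Space Y ∧ CompletelyRegularSpace Y ∧
      ∀ (Z : Type u) [TopologicalSpace Z],
        (∃ U : Set Z, IsOpen U ∧ U.Nonempty ∧ U ≠ Set.univ) →
          ¬ @RegularSpace C(Y, Z) (t1Z Y Z) ∧ ¬ @CompletelyRegularSpace C(Y, Z) (t1Z Y Z) := by
  refine ⟨Yt, inferInstance, inferInstance, inferInstance, inferInstance, ?_⟩
  rintro Z _ ⟨U, hU, ⟨z₁, h₁⟩, hne⟩
  obtain ⟨z₀, h₀⟩ : ∃ z₀, z₀ ∉ U := by
    by_contra hcon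
    push Not at hcon
    exact hne (Set.eq_univ_of_forall hcon)
  have h := not_regular hU h₁ h₀
  exact ⟨h, fun hc => h (@CompletelyRegularSpace.instRegularSpace _ (t1Z Yt Z) hc)⟩
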